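import Pool.Agent.Penny.AngSum49

set_option linter.all false

/-!
# Hyperbolic plane: the law of cosines in disc coordinates
-/

namespace Pool.Agent.Penny

open Complex UpperHalfPlane

noncomputable section

theorem normSq_disc (a b : ℍ) : Complex.normSq (disc a b) =
    ((b.re - a.re) ^ 2 + (b.im - a.im) ^ 2) / ((b.re - a.re) ^ 2 + (b.im + a.im) ^ 2) := by
  unfold disc
  rw [Complex.normSq_div, Complex.normSq_apply, Complex.normSq_apply]
  simp only [Complex.sub_re, Complex.sub_im, Complex.conj_re, Complex.conj_im,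
    UpperHalfPlane.coe_re, UpperHalfPlane.coe_im]
  ring_nf

theorem cosh_dist49 (a b : ℍ) : Real.cosh (dist a b) =
    1 + ((b.re - a.re) ^ 2 + (b.im - a.im) ^ 2) / (2 * a.im * b.im) := by
  rw [UpperHalfPlane.cosh_dist, Complex.dist_eq, ← Complex.normSq_eq_norm_sq,
    Complex.normSq_apply]
  simp only [Complex.sub_re, Complex.sub_im, UpperHalfPlane.coe_re, UpperHalfPlane.coe_im]
  congr 2
  ring

theorem cosh_disc (a b : ℍ) : Real.cosh (dist a b) =
    (1 + Complex.normSq (disc a b)) / (1 - Complex.normSq (disc a b)) := by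
  have h := normSq_disc_lt a b
  rw [cosh_dist49, eq_div_iff (by linarith), normSq_disc]
  have h1 := a.im_pos
  have h2 := b.im_pos
  have h3 : 0 < (b.re - a.re) ^ 2 + (b.im + a.im) ^ 2 := by positivity
  field_simp
  ring

theorem sinh_disc (a b : ℍ) : Real.sinh (dist a b) =
    2 * ‖disc a b‖ / (1 - Complex.normSq (disc a b)) := by
  have h := normSq_disc_lt a b
  have h0 : 0 < 1 - Complex.normSq (disc a b) := by linarith
  have h1 : 0 ≤ Real.sinh (dist a b) := Real.sinh_nonneg_iff.2 dist_nonneg
  have h2 : 0 ≤ 2 * ‖disc a b‖ / (1 - Complex.normSq (disc a b)) := by positivity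
  have h3 : Real.sinh (dist a b) ^ 2 = (2 * ‖disc a b‖ / (1 - Complex.normSq (disc a b))) ^ 2 := by
    rw [Real.sinh_sq, cosh_disc, div_pow, div_pow, mul_pow, ← Complex.normSq_eq_norm_sq]
    field_simp
    ring
  nlinarith [sq_nonneg (Real.sinh (dist a b) - 2 * ‖disc a b‖ / (1 - Complex.normSq (disc a b))),
    (sq_eq_sq₀ h1 h2).1 h3]

theorem cosh_disc_two (a b c : ℍ) : Real.cosh (dist b c) =
    1 + 2 * Complex.normSq (disc a b - disc a c) /
      ((1 - Complex.normSq (disc a b)) * (1 - Complex.normSq (disc a c))) := by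
  have h1 := a.im_pos
  have h2 := b.im_pos
  have h3 := c.im_pos
  have h4 := normSq_pos49 a b
  have h5 := normSq_pos49 a c
  have e1 : 1 - Complex.normSq (disc a b) =
      4 * a.im * b.im / Complex.normSq ((b : ℂ) - (starRingEnd ℂ) (a : ℂ)) := by
    unfold disc
    rw [Complex.normSq_div, eq_div_iff h4.ne', sub_mul, div_mul_cancel₀ _ h4.ne', one_mul,
      Complex.normSq_apply, Complex.normSq_apply]
    simp only [Complex.sub_re, Complex.sub_im, Complex.conj_re, Complex.conj_im,
      UpperHalfPlane.coe_re, UpperHalfPlane.coe_im]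
    ring
  have e2 : 1 - Complex.normSq (disc a c) =
      4 * a.im * c.im / Complex.normSq ((c : ℂ) - (starRingEnd ℂ) (a : ℂ)) := by
    unfold disc
    rw [Complex.normSq_div, eq_div_iff h5.ne', sub_mul, div_mul_cancel₀ _ h5.ne', one_mul,
      Complex.normSq_apply, Complex.normSq_apply]
    simp only [Complex.sub_re, Complex.sub_im, Complex.conj_re, Complex.conj_im,
      UpperHalfPlane.coe_re, UpperHalfPlane.coe_im]
    ring
  have e3 : Complex.normSq (disc a b - disc a c) =
      4 * a.im ^ 2 * ((c.re - b.re) ^ 2 + (c.im - b.im) ^ 2) /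
      (Complex.normSq ((b : ℂ) - (starRingEnd ℂ) (a : ℂ)) *
        Complex.normSq ((c : ℂ) - (starRingEnd ℂ) (a : ℂ))) := by
    have h6 := sub_conj_ne a b
    have h7 := sub_conj_ne a c
    have h8 : disc a b - disc a c = ((b : ℂ) - c) * ((a : ℂ) - (starRingEnd ℂ) (a : ℂ)) /
        (((b : ℂ) - (starRingEnd ℂ) (a : ℂ)) * ((c : ℂ) - (starRingEnd ℂ) (a : ℂ))) := by
      unfold disc
      field_simp
      ring
    rw [h8, Complex.normSq_div, Complex.normSq_mul, Complex.normSq_mul]
    congr 1
    rw [Complex.normSq_apply, Complex.normSq_apply]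
    simp only [Complex.sub_re, Complex.sub_im, Complex.conj_re, Complex.conj_im,
      UpperHalfPlane.coe_re, UpperHalfPlane.coe_im]
    ring
  rw [cosh_dist49, e1, e2, e3]
  field_simp
  ring

theorem cos_ang (a b c : ℍ) (hb : b ≠ a) (hc : c ≠ a) : Real.cos (ang a b c) =
    (disc a c * (starRingEnd ℂ) (disc a b)).re / (‖disc a b‖ * ‖disc a c‖) := by
  have hz := disc_ne hb
  have hw := disc_ne hc
  unfold ang
  rw [Complex.cos_arg (div_ne_zero hw hz), norm_div]
  have h1 : (disc a c / disc a b).re =
      (disc a c * (starRingEnd ℂ) (disc a b)).re / ‖disc a b‖ ^ 2 := by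
    rw [← Complex.normSq_eq_norm_sq, Complex.div_re]
    simp only [Complex.mul_re, Complex.conj_re, Complex.conj_im]
    ring
  rw [h1]
  have h2 := norm_pos_iff.2 hz
  have h3 := norm_pos_iff.2 hw
  field_simp

/-- **law of cosines** -/
theorem cosh_law (a b c : ℍ) (hb : b ≠ a) (hc : c ≠ a) :
    Real.cosh (dist b c) = Real.cosh (dist a b) * Real.cosh (dist a c) -
      Real.sinh (dist a b) * Real.sinh (dist a c) * Real.cos (ang a b c) := by
  rw [cosh_disc_two a b c, cosh_disc a b, cosh_disc a c, sinh_disc a b, sinh_disc a c,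
    cos_ang a b c hb hc]
  have h1 := norm_pos_iff.2 (disc_ne hb)
  have h2 := norm_pos_iff.2 (disc_ne hc)
  have h3 : 0 < 1 - Complex.normSq (disc a b) := by linarith [normSq_disc_lt a b]
  have h4 : 0 < 1 - Complex.normSq (disc a c) := by linarith [normSq_disc_lt a c]
  have h5 : Complex.normSq (disc a b - disc a c) = Complex.normSq (disc a b) +
      Complex.normSq (disc a c) - 2 * (disc a c * (starRingEnd ℂ) (disc a b)).re := by
    rw [Complex.normSq_apply, Complex.normSq_apply, Complex.normSq_apply]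
    simp only [Complex.mul_re, Complex.sub_re, Complex.sub_im, Complex.conj_re, Complex.conj_im]
    ring
  rw [h5]
  field_simp
  ring

/-- the cosine of the angle from the three sides -/
theorem cos_ang_sides (a b c : ℍ) (hb : b ≠ a) (hc : c ≠ a) :
    Real.cos (ang a b c) = (Real.cosh (dist a b) * Real.cosh (dist a c) - Real.cosh (dist b c)) /
      (Real.sinh (dist a b) * Real.sinh (dist a c)) := by
  have h1 : 0 < Real.sinh (dist a b) := Real.sinh_pos_iff.2 (dist_pos.2 hb.symm)
  have h2 : 0 < Real.sinh (dist a c) := Real.sinh_pos_iff.2 (dist_pos.2 hc.symm)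
  rw [cosh_law a b c hb hc, eq_div_iff (by positivity)]
  ring

end

end Pool.Agent.Penny
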