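import Mathlib

/-! Real analysis of isosceles hyperbolic triangles and of the rhombus (problem MP_45fc25_co).
Everything is stated through the hyperbolic law of cosines, no model is used. -/

set_option autoImplicit false

namespace Pool.Agent.Penny39

open Real

/-- The law of cosines: `a` is the side opposite to the angle `t` between the sides `b`, `c`. -/
def Cos (a b c t : ℝ) : Prop := cosh a = cosh b * cosh c - sinh b * sinh c * cos t

lemma cosh_gt_one {d : ℝ} (hd : 0 < d) : 1 < cosh d := Real.one_lt_cosh.2 hd.ne'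

lemma sinh_sq' (d : ℝ) : sinh d * sinh d = cosh d ^ 2 - 1 := by
  have := Real.cosh_sq d
  nlinarith

/-- the angle of the equilateral triangle -/
lemma cos_equi {d α : ℝ} (hd : 0 < d) (h : Cos d d d α) : cos α = cosh d / (1 + cosh d) := by
  have hc := cosh_gt_one hd
  have h2 : cosh d = cosh d * cosh d - sinh d * sinh d * cos α := h
  rw [sinh_sq'] at h2
  have h3 : (cosh d - 1) * ((1 + cosh d) * cos α - cosh d) = 0 := by nlinarith
  rcases mul_eq_zero.1 h3 with h4 | h4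
  · linarith
  · rw [eq_div_iff (by linarith)]
    linarith

lemma equi_lt {d α : ℝ} (hd : 0 < d) (h1 : α ≤ π) (h : Cos d d d α) : α < π / 3 := by
  have hc := cosh_gt_one hd
  have h2 := cos_equi hd h
  by_contra hcon
  push Not at hcon
  have h3 : cos α ≤ cos (π / 3) := Real.cos_le_cos_of_nonneg_of_le_pi (by positivity) h1 hcon
  rw [Real.cos_pi_div_three, h2, div_le_iff₀ (by linarith)] at h3
  linarith

lemma equi_pos {d α : ℝ} (hd : 0 < d) (h0 : 0 ≤ α) (h : Cos d d d α) : 0 < α := by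
  rcases h0.eq_or_lt with h1 | h1
  · exfalso
    have hc := cosh_gt_one hd
    have h2 := cos_equi hd h
    rw [← h1, Real.cos_zero, eq_div_iff (by linarith)] at h2
    linarith
  · exact h1

lemma equi_unique {d α β : ℝ} (hd : 0 < d) (hα0 : 0 ≤ α) (hα1 : α ≤ π) (hβ0 : 0 ≤ β) (hβ1 : β ≤ π)
    (h : Cos d d d α) (h' : Cos d d d β) : α = β := by
  refine Real.injOn_cos ⟨hα0, hα1⟩ ⟨hβ0, hβ1⟩ ?_
  rw [cos_equi hd h, cos_equi hd h']

/-- the angle opposite to a side `≥ d` between two sides `d` is at least `α(d)` -/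
lemma apex_ge {d D α γ : ℝ} (hd : 0 < d) (hD : d ≤ D) (hα1 : α ≤ π) (hγ0 : 0 ≤ γ)
    (h : Cos d d d α) (hγ : Cos D d d γ) : α ≤ γ := by
  have hc := cosh_gt_one hd
  have hC : cosh d ≤ cosh D := Real.cosh_le_cosh.2 (by rw [abs_of_pos hd, abs_of_pos (by linarith)]; exact hD)
  have h1 : cosh d = cosh d * cosh d - sinh d * sinh d * cos α := h
  have h2 : cosh D = cosh d * cosh d - sinh d * sinh d * cos γ := hγ
  rw [sinh_sq'] at h1 h2
  by_contra hcon
  push Not at hcon
  have h3 : cos α < cos γ := Real.cos_lt_cos_of_nonneg_of_le_pi hγ0 hα1 hcon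
  nlinarith [mul_pos (show 0 < cosh d ^ 2 - 1 by nlinarith) (sub_pos.2 h3)]

lemma sinh_sinh {d D : ℝ} : (sinh d * sinh D) ^ 2 = (cosh d ^ 2 - 1) * (cosh D ^ 2 - 1) := by
  have h1 := sinh_sq' d
  have h2 := sinh_sq' D
  calc (sinh d * sinh D) ^ 2 = (sinh d * sinh d) * (sinh D * sinh D) := by ring
    _ = _ := by rw [h1, h2]

/-- the square of the cosine of the base angle of an isosceles triangle with legs `d`, base `D` -/
lemma base_sq {d D β : ℝ} (hD : 0 < D) (hβ : Cos d d D β) :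
    cos β ^ 2 * ((cosh d ^ 2 - 1) * (cosh D + 1)) = cosh d ^ 2 * (cosh D - 1) := by
  have hC := cosh_gt_one hD
  have h1 : cosh d = cosh d * cosh D - sinh d * sinh D * cos β := hβ
  have h2 : sinh d * sinh D * cos β = cosh d * (cosh D - 1) := by linarith
  have h3 : (cosh d ^ 2 - 1) * (cosh D ^ 2 - 1) * cos β ^ 2 = (cosh d * (cosh D - 1)) ^ 2 := by
    rw [← h2, ← sinh_sinh]; ring
  have h4 : (cosh D - 1) * (cos β ^ 2 * ((cosh d ^ 2 - 1) * (cosh D + 1)) - cosh d ^ 2 * (cosh D - 1)) = 0 := by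
    nlinarith
  rcases mul_eq_zero.1 h4 with h5 | h5
  · linarith
  · linarith

lemma base_pos {d D β : ℝ} (hd : 0 < d) (hD : 0 < D) (hβ : Cos d d D β) : 0 < cos β := by
  have hc := cosh_gt_one hd
  have hC := cosh_gt_one hD
  have h1 : cosh d = cosh d * cosh D - sinh d * sinh D * cos β := hβ
  have h2 : sinh d * sinh D * cos β = cosh d * (cosh D - 1) := by linarith
  have h3 : 0 < sinh d * sinh D := mul_pos (Real.sinh_pos_iff.2 hd) (Real.sinh_pos_iff.2 hD)
  have h4 : 0 < cosh d * (cosh D - 1) := mul_pos (by linarith) (by linarith)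
  rw [← h2] at h4
  exact (mul_pos_iff_of_pos_left h3).1 h4

/-- the base angles of an isosceles triangle with legs `d` and base `≥ d` are at most `α(d)` -/
lemma base_le {d D α β : ℝ} (hd : 0 < d) (hD : d ≤ D) (hα0 : 0 ≤ α) (hβ1 : β ≤ π)
    (h : Cos d d d α) (hβ : Cos d d D β) : β ≤ α := by
  have hc := cosh_gt_one hd
  have hD0 : 0 < D := by linarith
  have hC : cosh d ≤ cosh D := Real.cosh_le_cosh.2 (by rw [abs_of_pos hd, abs_of_pos hD0]; exact hD)
  have h1 := cos_equi hd h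
  have h2 := base_sq hD0 hβ
  have h3 := base_pos hd hD0 hβ
  by_contra hcon
  push Not at hcon
  have h4 : cos β < cos α := Real.cos_lt_cos_of_nonneg_of_le_pi hα0 hβ1 hcon
  have h5 : cos β ^ 2 < cos α ^ 2 := by nlinarith
  have h6 : cos α * (1 + cosh d) = cosh d := by rw [h1]; field_simp
  have h7 : cos α ^ 2 * (1 + cosh d) ^ 2 = cosh d ^ 2 := by rw [← mul_pow, h6]
  -- cos β ^ 2 (c^2-1)(C+1) = c^2 (C-1), and < cos α^2 (c^2-1)(C+1) = c^2 (c-1)(C+1)/(c+1)
  have h8 : cos β ^ 2 * ((cosh d ^ 2 - 1) * (cosh D + 1)) <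
      cos α ^ 2 * ((cosh d ^ 2 - 1) * (cosh D + 1)) :=
    mul_lt_mul_of_pos_right h5 (mul_pos (by nlinarith) (by linarith))
  rw [h2] at h8
  have h9 : (cos α ^ 2 * ((cosh d ^ 2 - 1) * (cosh D + 1))) * (1 + cosh d) =
      cosh d ^ 2 * ((cosh d - 1) * (cosh D + 1)) := by
    linear_combination (cosh d - 1) * (cosh D + 1) * h7
  have h10 : cosh d ^ 2 * (cosh D - 1) * (1 + cosh d) < cosh d ^ 2 * ((cosh d - 1) * (cosh D + 1)) := by
    rw [← h9]
    exact mul_lt_mul_of_pos_right h8 (by linarith)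
  have h11 : 0 < cosh d ^ 2 := by positivity
  have h12 : (cosh D - 1) * (1 + cosh d) < (cosh d - 1) * (cosh D + 1) := by
    by_contra h
    push Not at h
    have := mul_le_mul_of_nonneg_left h h11.le
    nlinarith
  nlinarith

/-- **The rhombus.** Four sides `d`, a diagonal `D ≥ d`, and the other diagonal `≥ d`: all four angles are
at most `2 α(d)`. Here `γ` is the angle opposite to the diagonal `D`, and `β`, `β'` are the two parts of the
angle at an end of the diagonal `D`. -/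
theorem rhombus {d D D' α γ β β' : ℝ} (hd : 0 < d) (hD : d ≤ D) (hD' : d ≤ D')
    (hα0 : 0 ≤ α) (hα1 : α ≤ π) (hγ1 : γ ≤ π)
    (hβ0 : 0 ≤ β) (hβ1 : β ≤ π) (hβ'0 : 0 ≤ β') (hβ'1 : β' ≤ π)
    (h : Cos d d d α) (hγ : Cos D d d γ) (hβ : Cos d d D β) (hβ' : Cos d d D β')
    (hdiag : Cos D' d d (β + β')) : γ ≤ 2 * α ∧ β + β' ≤ 2 * α := by
  have hc := cosh_gt_one hd
  have hD0 : 0 < D := by linarith
  have hC : cosh d ≤ cosh D := Real.cosh_le_cosh.2 (by rw [abs_of_pos hd, abs_of_pos hD0]; exact hD)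
  have hα3 := equi_lt hd hα1 h
  have hb1 := base_le hd hD hα0 hβ1 h hβ
  have hb2 := base_le hd hD hα0 hβ'1 h hβ'
  have hbb : β' = β := by
    refine Real.injOn_cos ⟨hβ'0, hβ'1⟩ ⟨hβ0, hβ1⟩ ?_
    have e1 : cosh d = cosh d * cosh D - sinh d * sinh D * cos β := hβ
    have e2 : cosh d = cosh d * cosh D - sinh d * sinh D * cos β' := hβ'
    have h3 : 0 < sinh d * sinh D := mul_pos (Real.sinh_pos_iff.2 hd) (Real.sinh_pos_iff.2 hD0)
    have : sinh d * sinh D * (cos β' - cos β) = 0 := by linarith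
    rcases mul_eq_zero.1 this with h4 | h4
    · linarith
    · linarith
  subst hbb
  refine ⟨?_, by linarith⟩
  -- `α ≤ 2 β`
  have h1 := cos_equi hd h
  have hge : α ≤ β' + β' := apex_ge hd hD' hα1 (by linarith) h hdiag
  have hcos : cos (2 * β') ≤ cosh d / (1 + cosh d) := by
    rw [← h1]
    exact Real.cos_le_cos_of_nonneg_of_le_pi hα0 (by linarith [Real.pi_pos]) (by linarith)
  rw [Real.cos_two_mul] at hcos
  have h2 := base_sq hD0 hβ
  have h3 : (2 * cos β' ^ 2 - 1) * (1 + cosh d) ≤ cosh d := by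
    rwa [le_div_iff₀ (by linarith)] at hcos
  have h4 : cos β' ^ 2 * (2 * (1 + cosh d)) ≤ 1 + 2 * cosh d := by linarith
  -- multiply by (c - 1) (C + 1)
  have h5 : cos β' ^ 2 * (2 * (1 + cosh d)) * ((cosh d - 1) * (cosh D + 1)) ≤
      (1 + 2 * cosh d) * ((cosh d - 1) * (cosh D + 1)) :=
    mul_le_mul_of_nonneg_right h4 (mul_nonneg (by linarith) (by linarith))
  have h6 : 2 * (cosh d ^ 2 * (cosh D - 1)) ≤ (1 + 2 * cosh d) * ((cosh d - 1) * (cosh D + 1)) := by
    rw [← h2]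
    refine le_trans (le_of_eq ?_) h5
    ring
  have h7 : (cosh d + 1) * cosh D ≤ 4 * cosh d ^ 2 - cosh d - 1 := by nlinarith
  -- cos γ ≥ cos (2 α)
  have h8 : cosh D = cosh d * cosh d - sinh d * sinh d * cos γ := hγ
  rw [sinh_sq'] at h8
  have h9 : cos (2 * α) ≤ cos γ := by
    rw [Real.cos_two_mul, h1]
    have h10 : 2 * (cosh d / (1 + cosh d)) ^ 2 - 1 = (cosh d ^ 2 - 2 * cosh d - 1) / (1 + cosh d) ^ 2 := by
      field_simp
      ring
    rw [h10, div_le_iff₀ (by positivity)]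
    have h11 : (cosh d - 1) * (cosh d ^ 2 - 2 * cosh d - 1) ≤ (cosh d - 1) * (cos γ * (1 + cosh d) ^ 2) := by
      nlinarith
    exact le_of_mul_le_mul_left h11 (by linarith)
  by_contra hcon
  push Not at hcon
  have := Real.cos_lt_cos_of_nonneg_of_le_pi (by linarith) hγ1 hcon
  linarith

end Pool.Agent.Penny39
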