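import Pool.Agent.Penny.HypD49

set_option linter.all false

/-!
# Hyperbolic plane: the angle sum of a triangle is less than `π`
-/

namespace Pool.Agent.Penny

open Complex UpperHalfPlane

noncomputable section

theorem mul_im_polar (x y : ℂ) :
    (x * y).im = ‖x‖ * ‖y‖ * Real.sin (arg x + arg y) := by
  conv_lhs => rw [← Complex.norm_mul_exp_arg_mul_I x, ← Complex.norm_mul_exp_arg_mul_I y]
  have h1 : (‖x‖ : ℂ) * exp (arg x * Complex.I) * ((‖y‖ : ℂ) * exp (arg y * Complex.I)) =
      ((‖x‖ * ‖y‖ : ℝ) : ℂ) * exp (((arg x + arg y : ℝ) : ℂ) * Complex.I) := by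
    push_cast
    rw [add_mul, Complex.exp_add]
    ring
  rw [h1, Complex.im_ofReal_mul, Complex.exp_ofReal_mul_I_im]

theorem norm_pos_of_im {x : ℂ} (h : 0 < x.im) : 0 < ‖x‖ := by
  rw [norm_pos_iff]
  rintro rfl
  simp at h

/-- arguments add up in the upper half plane -/
theorem arg_mul_of_im {x y : ℂ} (hx : 0 < x.im) (hy : 0 < y.im) (hxy : 0 ≤ (x * y).im) :
    arg (x * y) = arg x + arg y := by
  have h1 := arg_pos49 hx
  have h2 := arg_pos49 hy
  have hxn := norm_pos_of_im hx
  have hyn := norm_pos_of_im hy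
  have hx0 : x ≠ 0 := norm_pos_iff.1 hxn
  have hy0 : y ≠ 0 := norm_pos_iff.1 hyn
  refine Complex.arg_mul hx0 hy0 ⟨by linarith, ?_⟩
  by_contra hcon
  push Not at hcon
  rw [mul_im_polar] at hxy
  have h3 : Real.sin (arg x + arg y) < 0 := by
    have h4 : Real.sin (arg x + arg y - Real.pi) = - Real.sin (arg x + arg y) :=
      Real.sin_sub_pi _
    have h5 : 0 < Real.sin (arg x + arg y - Real.pi) :=
      Real.sin_pos_of_pos_of_lt_pi (by linarith) (by linarith)
    linarith
  have h6 := mul_neg_of_pos_of_neg (mul_pos hxn hyn) h3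
  linarith

/-- the angle sum of a Euclidean triangle -/
theorem arg_euclid {x y t : ℂ} (hx : 0 < x.im) (hy : 0 < y.im) (ht : 0 < t.im)
    (h : x * y * t = -1) : arg x + arg y + arg t = Real.pi := by
  have ht0 : t ≠ 0 := norm_pos_iff.1 (norm_pos_of_im ht)
  have h1 : 0 < (x * y).im := by
    have e : x * y = - t⁻¹ := by
      field_simp
      exact h
    rw [e, Complex.neg_im, Complex.inv_im]
    have := Complex.normSq_pos.2 ht0
    have h3 : -(-t.im / Complex.normSq t) = t.im / Complex.normSq t := by ring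
    rw [h3]
    positivity
  have h2 := arg_mul_of_im hx hy h1.le
  have h3 := arg_mul_of_im h1 ht (by rw [h]; simp)
  rw [h, Complex.arg_neg_one, h2] at h3
  linarith

/-- the quotient at the second vertex in the disc centred at the first -/
theorem quot_b (a b c : ℍ) (hb : b ≠ a) (hc : c ≠ b) :
    disc b a / disc b c = disc a b / (disc a b - disc a c) *
      (1 - (starRingEnd ℂ) (disc a b) * disc a c) := by
  have h1 := sub_conj_ne a b
  have h2 := sub_conj_ne a c
  have h3 := sub_conj_ne b a
  have h4 := sub_conj_ne b c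
  have h5 : (b : ℂ) - a ≠ 0 := fun h => hb (UpperHalfPlane.ext (sub_eq_zero.1 h))
  have h6 : (c : ℂ) - b ≠ 0 := fun h => hc (UpperHalfPlane.ext (sub_eq_zero.1 h))
  have h7 : (starRingEnd ℂ) (b : ℂ) - (a : ℂ) ≠ 0 := by
    intro h; apply h3
    rw [← neg_sub, h, neg_zero]
  have h8 : disc a b - disc a c = ((b : ℂ) - c) * ((a : ℂ) - (starRingEnd ℂ) (a : ℂ)) /
      (((b : ℂ) - (starRingEnd ℂ) (a : ℂ)) * ((c : ℂ) - (starRingEnd ℂ) (a : ℂ))) := by
    unfold disc
    field_simp
    ring
  have h9 : 1 - (starRingEnd ℂ) (disc a b) * disc a c =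
      ((a : ℂ) - (starRingEnd ℂ) (a : ℂ)) * ((starRingEnd ℂ) (b : ℂ) - c) /
      (((starRingEnd ℂ) (b : ℂ) - a) * ((c : ℂ) - (starRingEnd ℂ) (a : ℂ))) := by
    unfold disc
    rw [map_div₀, map_sub, map_sub, Complex.conj_conj]
    field_simp
    ring
  have h10 : (a : ℂ) - (starRingEnd ℂ) (a : ℂ) ≠ 0 := sub_conj_ne a a
  have h11 : (b : ℂ) - c ≠ 0 := by
    intro h; apply h6
    rw [← neg_sub, h, neg_zero]
  rw [h8, h9]
  unfold disc
  field_simp
  ring

theorem quot_c (a b c : ℍ) (hca : c ≠ a) (hb : b ≠ a) (hc : c ≠ b) :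
    disc c b / disc c a = (disc a c - disc a b) / disc a c /
      (1 - (starRingEnd ℂ) (disc a c) * disc a b) := by
  have h := quot_b a c b hca hc.symm
  rw [← inv_div, h]
  have h1 : disc a c ≠ 0 := disc_ne hca
  rw [mul_inv, inv_div, div_eq_mul_inv ((disc a c - disc a b) / disc a c)]

theorem normSq_disc_lt (v p : ℍ) : Complex.normSq (disc v p) < 1 := by
  unfold disc
  rw [Complex.normSq_div, div_lt_one (normSq_pos49 v p), Complex.normSq_apply,
    Complex.normSq_apply]
  simp only [Complex.sub_re, Complex.sub_im, Complex.conj_re, Complex.conj_im]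
  have h1 := v.im_pos
  have h2 := p.im_pos
  have h3 := mul_pos h1 h2
  simp only [UpperHalfPlane.coe_re, UpperHalfPlane.coe_im]
  nlinarith

theorem one_sub_re_pos {z w : ℂ} (hz : Complex.normSq z < 1) (hw : Complex.normSq w < 1) :
    0 < (1 - (starRingEnd ℂ) z * w).re := by
  simp only [Complex.sub_re, Complex.one_re, Complex.mul_re, Complex.conj_re, Complex.conj_im]
  rw [Complex.normSq_apply] at hz hw
  nlinarith [sq_nonneg (z.re - w.re), sq_nonneg (z.im - w.im)]

/-- the angle sum of a positively oriented triangle is less than `π` -/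
theorem ang_sum {a b c : ℍ} (h : 0 < dt (kl a) (kl b) (kl c)) :
    ang a b c + ang b c a + ang c a b < Real.pi := by
  have hba : b ≠ a := by
    rintro rfl
    simp [dt] at h
  have hca : c ≠ a := by
    rintro rfl
    simp [dt] at h
  have hcb : c ≠ b := by
    rintro rfl
    unfold dt at h
    linarith [mul_comm ((kl c).1 - (kl a).1) ((kl c).2 - (kl a).2)]
  have hA := (disc_im_pos hba).2 h
  have hz := disc_ne hba
  have hw := disc_ne hca
  set z := disc a b with hzdef
  set w := disc a c with hwdef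
  have hzw : z - w ≠ 0 := by
    intro h0
    have : z = w := sub_eq_zero.1 h0
    rw [this, div_self hw] at hA
    simp at hA
  have hwz : w - z ≠ 0 := fun h0 => hzw (by rw [← neg_sub, h0, neg_zero])
  have him : 0 < ((starRingEnd ℂ) z * w).im := by
    rw [im_div_pos49 hz] at hA
    have h1 := Complex.normSq_pos.2 hz
    rw [mul_comm]
    by_contra hcon
    push Not at hcon
    have := div_nonpos_of_nonpos_of_nonneg hcon h1.le
    linarith
  set u := 1 - (starRingEnd ℂ) z * w with hu
  have hu1 : 0 < u.re := one_sub_re_pos (normSq_disc_lt a b) (normSq_disc_lt a c)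
  have hu2 : u.im < 0 := by
    rw [hu, Complex.sub_im, Complex.one_im]; linarith
  have hu0 : u ≠ 0 := by
    intro h0; rw [h0] at hu1; simp at hu1
  have hua : -(Real.pi / 2) < arg u ∧ arg u < 0 := by
    refine ⟨?_, Complex.arg_neg_iff.2 hu2⟩
    have := (Complex.abs_arg_lt_pi_div_two_iff.2 (Or.inl hu1))
    exact (abs_lt.1 this).1
  -- the Euclidean triangle
  have hy : 0 < (z / (z - w)).im := by
    rw [im_div_pos49 hzw]
    have h1 := Complex.normSq_pos.2 hzw
    have h2 : (z * (starRingEnd ℂ) (z - w)).im = ((starRingEnd ℂ) z * w).im := by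
      simp only [map_sub, Complex.mul_im, Complex.sub_re, Complex.sub_im, Complex.conj_re,
        Complex.conj_im]
      ring
    rw [h2]
    positivity
  have ht : 0 < ((w - z) / w).im := by
    rw [im_div_pos49 hw]
    have h1 := Complex.normSq_pos.2 hw
    have h2 : ((w - z) * (starRingEnd ℂ) w).im = ((starRingEnd ℂ) z * w).im := by
      simp only [map_sub, Complex.mul_im, Complex.sub_re, Complex.sub_im, Complex.conj_re,
        Complex.conj_im]
      ring
    rw [h2]
    positivity
  have hE := arg_euclid hA hy ht (by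
    field_simp
    ring)
  have hy1 := arg_pos49 hy
  have ht1 := arg_pos49 ht
  -- the angle at `b`
  have hB : ang b c a = arg (z / (z - w)) + arg u := by
    unfold ang
    rw [quot_b a b c hba hcb]
    exact Complex.arg_mul (div_ne_zero hz hzw) hu0 ⟨by linarith, by linarith⟩
  have hC : ang c a b = arg ((w - z) / w) + arg u := by
    unfold ang
    rw [quot_c a b c hca hba hcb]
    have h1 : 1 - (starRingEnd ℂ) (disc a c) * disc a b = (starRingEnd ℂ) u := by
      rw [hu, map_sub, map_one, map_mul, Complex.conj_conj, ← hzdef, ← hwdef]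
      ring
    have h2 : (disc a c - disc a b) / disc a c / (1 - (starRingEnd ℂ) (disc a c) * disc a b) =
        (((Complex.normSq u)⁻¹ : ℝ) : ℂ) * ((w - z) / w * u) := by
      rw [h1, ← hzdef, ← hwdef, Complex.ofReal_inv, ← Complex.mul_conj]
      have h3 : (starRingEnd ℂ) u ≠ 0 := by rw [Ne, map_eq_zero]; exact hu0
      field_simp
    have h4 := Complex.normSq_pos.2 hu0
    rw [h2, Complex.arg_real_mul _ (by positivity)]
    exact Complex.arg_mul (div_ne_zero hwz hw) hu0 ⟨by linarith, by linarith⟩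
  have hAA : ang a b c = arg (w / z) := rfl
  rw [hAA, hB, hC]
  linarith [hua.2]

end

end Pool.Agent.Penny
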