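import Mathlib

set_option linter.all false

/-!
# Hyperbolic plane: Klein coordinates, disc coordinates, angles
-/

namespace Pool.Agent.Penny

open Complex UpperHalfPlane

noncomputable section

/-- Klein coordinates of a point of the upper half plane -/
def kl (z : ℍ) : ℝ × ℝ := (z.re, Complex.normSq (z : ℂ))

/-- twice the signed area of a triangle -/
def dt (a b c : ℝ × ℝ) : ℝ := (b.1 - a.1) * (c.2 - a.2) - (b.2 - a.2) * (c.1 - a.1)

/-- the coordinate of `p` in the disc centred at `v` -/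
def disc (v p : ℍ) : ℂ := ((p : ℂ) - v) / ((p : ℂ) - (starRingEnd ℂ) (v : ℂ))

/-- the linear map from Klein vectors at `v` to the disc centred at `v` -/
def lin (v : ℍ) (w : ℝ × ℝ) : ℂ := ⟨w.2 - 2 * v.re * w.1, -(2 * v.im * w.1)⟩

/-- the counterclockwise angle at `a` from `b` to `c` -/
def ang (a b c : ℍ) : ℝ := arg (disc a c / disc a b)

theorem sub_conj_ne (v p : ℍ) : (p : ℂ) - (starRingEnd ℂ) (v : ℂ) ≠ 0 := by
  intro h
  have h1 := congrArg Complex.im h
  simp only [Complex.sub_im, Complex.conj_im, Complex.zero_im, UpperHalfPlane.coe_im] at h1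
  have h2 := p.im_pos
  have h3 := v.im_pos
  linarith

theorem normSq_pos49 (v p : ℍ) : 0 < Complex.normSq ((p : ℂ) - (starRingEnd ℂ) (v : ℂ)) :=
  Complex.normSq_pos.2 (sub_conj_ne v p)

theorem disc_eq (v p : ℍ) :
    disc v p = (((Complex.normSq ((p : ℂ) - (starRingEnd ℂ) (v : ℂ)))⁻¹ : ℝ) : ℂ) *
      lin v (kl p - kl v) := by
  have hn := sub_conj_ne v p
  have h1 : ((Complex.normSq ((p : ℂ) - (starRingEnd ℂ) (v : ℂ)) : ℝ) : ℂ) =
      ((p : ℂ) - (starRingEnd ℂ) (v : ℂ)) *
        (starRingEnd ℂ) ((p : ℂ) - (starRingEnd ℂ) (v : ℂ)) := (Complex.mul_conj _).symm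
  have h2 : lin v (kl p - kl v) =
      ((p : ℂ) - v) * (starRingEnd ℂ) ((p : ℂ) - (starRingEnd ℂ) (v : ℂ)) := by
    apply Complex.ext
    · simp only [lin, kl, Complex.mul_re, Complex.sub_re, Complex.sub_im, Complex.conj_re,
        Complex.conj_im, map_sub, Complex.conj_conj, Complex.normSq_apply,
        UpperHalfPlane.coe_re, UpperHalfPlane.coe_im, Prod.fst_sub, Prod.snd_sub]
      ring
    · simp only [lin, kl, Complex.mul_im, Complex.sub_re, Complex.sub_im, Complex.conj_re,
        Complex.conj_im, map_sub, Complex.conj_conj, Complex.normSq_apply,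
        UpperHalfPlane.coe_re, UpperHalfPlane.coe_im, Prod.fst_sub, Prod.snd_sub]
      ring
  have hc : (starRingEnd ℂ) ((p : ℂ) - (starRingEnd ℂ) (v : ℂ)) ≠ 0 := by
    rw [Ne, map_eq_zero]; exact hn
  rw [h2, Complex.ofReal_inv, h1]
  unfold disc
  field_simp

theorem lin_add (v : ℍ) (w w' : ℝ × ℝ) : lin v (w + w') = lin v w + lin v w' := by
  apply Complex.ext
  · simp only [lin, Complex.add_re, Prod.fst_add, Prod.snd_add]; ring
  · simp only [lin, Complex.add_im, Prod.fst_add, Prod.snd_add]; ring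

theorem lin_smul (v : ℍ) (t : ℝ) (w : ℝ × ℝ) : lin v (t • w) = (t : ℂ) * lin v w := by
  apply Complex.ext
  · simp only [lin, Complex.mul_re, Complex.ofReal_re, Complex.ofReal_im, Prod.smul_fst,
      Prod.smul_snd, smul_eq_mul]; ring
  · simp only [lin, Complex.mul_im, Complex.ofReal_re, Complex.ofReal_im, Prod.smul_fst,
      Prod.smul_snd, smul_eq_mul]; ring

theorem lin_eq_zero {v : ℍ} {w : ℝ × ℝ} : lin v w = 0 ↔ w = 0 := by
  constructor
  · intro h
    have h1 := congrArg Complex.re h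
    have h2 := congrArg Complex.im h
    simp only [lin, Complex.zero_re, Complex.zero_im] at h1 h2
    have h3 := v.im_pos
    have h4 : w.1 = 0 := by
      have : v.im * w.1 = 0 := by linarith
      rcases mul_eq_zero.1 this with h | h
      · exact absurd h h3.ne'
      · exact h
    rw [h4] at h1
    exact Prod.ext h4 (by simpa using h1)
  · rintro rfl
    apply Complex.ext <;> simp [lin]

/-- `lin v` multiplies areas by `2 v.im` -/
theorem lin_det (v : ℍ) (w w' : ℝ × ℝ) :
    (lin v w' * (starRingEnd ℂ) (lin v w)).im = 2 * v.im * (w.1 * w'.2 - w.2 * w'.1) := by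
  simp only [lin, Complex.mul_im, Complex.conj_re, Complex.conj_im]
  ring

theorem disc_eq_zero {v p : ℍ} : disc v p = 0 ↔ p = v := by
  unfold disc
  rw [div_eq_zero_iff]
  constructor
  · rintro (h | h)
    · exact UpperHalfPlane.ext (sub_eq_zero.1 h)
    · exact absurd h (sub_conj_ne v p)
  · rintro rfl
    left; simp

theorem disc_ne {v p : ℍ} (h : p ≠ v) : disc v p ≠ 0 := fun hh => h (disc_eq_zero.1 hh)

theorem kl_inj {p q : ℍ} (h : kl p = kl q) : p = q := by
  have h1 := congrArg Prod.fst h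
  have h2 := congrArg Prod.snd h
  simp only [kl, Complex.normSq_apply, UpperHalfPlane.coe_re, UpperHalfPlane.coe_im] at h1 h2
  rw [h1] at h2
  have h3 : p.im = q.im := by
    have h4 := p.im_pos
    have h5 := q.im_pos
    nlinarith
  apply UpperHalfPlane.ext
  apply Complex.ext
  · exact h1
  · exact h3

/-- the angle at `a` is the Euclidean angle of the images of the Klein vectors -/
theorem ang_eq_lin (a b c : ℍ) :
    ang a b c = arg (lin a (kl c - kl a) / lin a (kl b - kl a)) := by
  unfold ang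
  rw [disc_eq a c, disc_eq a b]
  have h1 := normSq_pos49 a b
  have h2 := normSq_pos49 a c
  rw [mul_div_mul_comm, ← Complex.ofReal_div, Complex.arg_real_mul _ (by positivity)]

theorem im_div_pos49 {z w : ℂ} (hw : w ≠ 0) :
    (z / w).im = (z * (starRingEnd ℂ) w).im / Complex.normSq w := by
  rw [Complex.div_im]
  simp only [Complex.mul_im, Complex.conj_re, Complex.conj_im]
  ring

theorem im_lin_div {v : ℍ} {w w' : ℝ × ℝ} (hw : w ≠ 0) :
    (lin v w' / lin v w).im = 2 * v.im * (w.1 * w'.2 - w.2 * w'.1) /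
      Complex.normSq (lin v w) := by
  rw [im_div_pos49 (fun h => hw (lin_eq_zero.1 h)), lin_det]

/-- orientation -/
theorem disc_im_pos {a b c : ℍ} (h : b ≠ a) :
    0 < (disc a c / disc a b).im ↔ 0 < dt (kl a) (kl b) (kl c) := by
  rw [disc_eq a c, disc_eq a b]
  have h1 := normSq_pos49 a b
  have h2 := normSq_pos49 a c
  have hw : kl b - kl a ≠ 0 := fun hh => h (kl_inj (sub_eq_zero.1 hh))
  have h3 : 0 < Complex.normSq (lin a (kl b - kl a)) :=
    Complex.normSq_pos.2 fun hh => hw (lin_eq_zero.1 hh)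
  have h4 := a.im_pos
  rw [mul_div_mul_comm, ← Complex.ofReal_div, Complex.im_ofReal_mul, im_lin_div hw]
  have h5 : (kl b - kl a).1 * (kl c - kl a).2 - (kl b - kl a).2 * (kl c - kl a).1 =
      dt (kl a) (kl b) (kl c) := by
    simp only [dt, Prod.fst_sub, Prod.snd_sub]
  rw [h5]
  constructor
  · intro h6
    by_contra hcon
    push Not at hcon
    have h7 : 2 * a.im * dt (kl a) (kl b) (kl c) / Complex.normSq (lin a (kl b - kl a)) ≤ 0 :=
      div_nonpos_of_nonpos_of_nonneg (mul_nonpos_of_nonneg_of_nonpos (by positivity) hcon) h3.le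
    have h8 := mul_nonpos_of_nonneg_of_nonpos (a := (Complex.normSq ((c : ℂ) - (starRingEnd ℂ) (a : ℂ)))⁻¹ /
      (Complex.normSq ((b : ℂ) - (starRingEnd ℂ) (a : ℂ)))⁻¹) (by positivity) h7
    linarith
  · intro h6
    positivity

theorem arg_pos49 {z : ℂ} (h : 0 < z.im) : 0 < arg z ∧ arg z < Real.pi := by
  constructor
  · rcases (Complex.arg_nonneg_iff.2 h.le).lt_or_eq with h1 | h1
    · exact h1
    · exact absurd ((Complex.arg_eq_zero_iff.1 h1.symm).2) h.ne'
  · rcases (Complex.arg_le_pi z).lt_or_eq with h1 | h1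
    · exact h1
    · exact absurd ((Complex.arg_eq_pi_iff.1 h1).2) h.ne'

/-- the angle of a positively oriented triangle lies in `(0, π)` -/
theorem ang_pos {a b c : ℍ} (h : 0 < dt (kl a) (kl b) (kl c)) :
    0 < ang a b c ∧ ang a b c < Real.pi := by
  have hb : b ≠ a := by
    rintro rfl
    simp [dt] at h
  exact arg_pos49 ((disc_im_pos hb).2 h)

theorem dt_rot (a b c : ℝ × ℝ) : dt b c a = dt a b c := by
  unfold dt; ring

end

end Pool.Agent.Penny
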